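import Mathlib

/-!
# A simple solution of the Yang-Baxter equation on `3 * 4` points with blocks of size `4`

A finite simple involutive non-degenerate solution on `Fin 3 × Fin 4` (its permutation group is the
symmetric group of degree 4) for which the three sets `X_y` of size `4` are blocks of
imprimitivity.  The tables of `σ` and `τ` are stored as the base `12` digits of two integers.
-/

set_option autoImplicit false

namespace Pool.Agent.Results.MP_9f168b_al.ThreeBlocksOfSizeFour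

/-- `r × id` on `X ^ 3`. -/
def r12 {X : Type} (r : X × X → X × X) : X × X × X → X × X × X :=
  fun p => ((r (p.1, p.2.1)).1, (r (p.1, p.2.1)).2, p.2.2)

/-- `id × r` on `X ^ 3`. -/
def r23 {X : Type} (r : X × X → X × X) : X × X × X → X × X × X :=
  fun p => (p.1, r (p.2.1, p.2.2))

/-- Involutive non-degenerate set-theoretic solutions of the Yang-Baxter equation. -/
structure IsSolution {X : Type} (r : X × X → X × X) : Prop where
  invol : ∀ p, r (r p) = p
  left : ∀ x, Function.Bijective (fun y => (r (x, y)).1)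
  right : ∀ y, Function.Bijective (fun x => (r (x, y)).2)
  braid : r12 r ∘ r23 r ∘ r12 r = r23 r ∘ r12 r ∘ r23 r

/-- Homomorphisms of solutions. -/
def IsHom {X X' : Type} (r : X × X → X × X) (r' : X' × X' → X' × X') (f : X → X') : Prop :=
  Prod.map f f ∘ r = r' ∘ Prod.map f f

/-- Simple solutions: more than one point, and every epimorphism onto a solution is bijective or
has a one-point image. -/
def IsSimple {X : Type} (r : X × X → X × X) : Prop :=
  1 < Nat.card X ∧ ∀ (X' : Type) (r' : X' × X' → X' × X'), IsSolution r' → ∀ f : X → X',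
    Function.Surjective f → IsHom r r' f → Function.Bijective f ∨ Nat.card X' = 1

/-- The permutation group of the solution, generated by the `σ_x`. -/
def permGroup {X : Type} (r : X × X → X × X) : Subgroup (Equiv.Perm X) :=
  Subgroup.closure {g | ∃ x, ∀ y, g y = (r (x, y)).1}

/-- The sets `X_y = {(y, z) : z}` are blocks of imprimitivity: every element of the permutation
group maps each of them onto one of them. -/
def AreBlocks {Y Z : Type} (r : (Y × Z) × (Y × Z) → (Y × Z) × (Y × Z)) : Prop :=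
  ∀ g ∈ permGroup r, ∀ y : Y, ∃ y' : Y, g '' {p | p.1 = y} = {p | p.1 = y'}

/-- the number of a point -/
def enc (p : Fin 3 × Fin 4) : ℕ := 4 * p.1.val + p.2.val

/-- the point with a given number -/
def dec (n : ℕ) : Fin 3 × Fin 4 := (Fin.ofNat 3 (n / 4), Fin.ofNat 4 (n % 4))

/-- table of `σ` -/
def tabS : ℕ := 97208659207496020345094214394049962781692652501516334614154612863987003701383507056957559322538968292221516979512768042629621777092446040527313168041279268

/-- table of `τ` -/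
def tabT : ℕ := 147860205343606893426690440461578398728075962795069162595529831028424863936980956424479112296770692816042530560901647563322326267677815243376244344697531895

/-- The solution. -/
def r (p : (Fin 3 × Fin 4) × (Fin 3 × Fin 4)) : (Fin 3 × Fin 4) × (Fin 3 × Fin 4) :=
  (dec (tabS / 12 ^ (12 * enc p.1 + enc p.2) % 12), dec (tabT / 12 ^ (12 * enc p.1 + enc p.2) % 12))

theorem r_invol : ∀ p, r (r p) = p := by decide +kernel

theorem r_left : ∀ x y y', (r (x, y)).1 = (r (x, y')).1 → y = y' := by decide +kernel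

theorem r_right : ∀ y x x', (r (x, y)).2 = (r (x', y)).2 → x = x' := by decide +kernel

theorem r_braid : ∀ p, r12 r (r23 r (r12 r p)) = r23 r (r12 r (r23 r p)) := by decide +kernel

theorem solution : IsSolution r where
  invol := r_invol
  left x := Finite.injective_iff_bijective.1 fun y y' h => r_left x y y' h
  right y := Finite.injective_iff_bijective.1 fun x x' h => r_right y x x' h
  braid := funext r_braid

theorem block_gen : ∀ x : Fin 3 × Fin 4, ∀ y : Fin 3, ∃ y' : Fin 3, ∀ z : Fin 4,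
    (r (x, (y, z))).1.1 = y' := by decide +kernel

theorem block_inj : ∀ x : Fin 3 × Fin 4, ∀ p q : Fin 3 × Fin 4,
    (r (x, p)).1.1 = (r (x, q)).1.1 → p.1 = q.1 := by decide +kernel

/-- the property of mapping classes to classes -/
def Good (g : Equiv.Perm (Fin 3 × Fin 4)) : Prop := ∀ p q, (g p).1 = (g q).1 ↔ p.1 = q.1

theorem good_mem (g : Equiv.Perm (Fin 3 × Fin 4)) (hg : g ∈ permGroup r) : Good g := by
  refine Subgroup.closure_induction (p := fun g _ => Good g) ?_ ?_ ?_ ?_ hg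
  · rintro g ⟨x, hx⟩ p q
    rw [hx, hx]
    constructor
    · exact block_inj x p q
    · intro h
      obtain ⟨p1, p2⟩ := p
      obtain ⟨q1, q2⟩ := q
      simp only at h
      subst h
      obtain ⟨y', hy'⟩ := block_gen x p1
      rw [hy', hy']
  · intro p q
    simp
  · intro g h _ _ hg hh p q
    rw [Equiv.Perm.mul_apply, Equiv.Perm.mul_apply, hg, hh]
  · intro g _ hg p q
    have e : ∀ p, g (g⁻¹ p) = p := fun p => by simp
    have := hg (g⁻¹ p) (g⁻¹ q)
    rw [e, e] at this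
    exact this.symm

theorem blocks : AreBlocks r := by
  intro g hg y
  have hG := good_mem g hg
  refine ⟨(g (y, 0)).1, ?_⟩
  ext p
  simp only [Set.mem_image, Set.mem_ofPred_eq]
  constructor
  · rintro ⟨q, hq, rfl⟩
    rw [hG, hq]
  · intro h
    refine ⟨g⁻¹ p, ?_, by simp⟩
    have e : g (g⁻¹ p) = p := by simp
    have := hG (g⁻¹ p) (y, 0)
    rw [e] at this
    exact this.1 h

section simple

variable {X' : Type} {r' : X' × X' → X' × X'} {f : Fin 3 × Fin 4 → X'}

theorem hom_eq (h : IsHom r r' f) (a b : Fin 3 × Fin 4) :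
    f (r (a, b)).1 = (r' (f a, f b)).1 :=
  congrArg Prod.fst (congrFun h (a, b))

theorem stepL (h : IsHom r r' f) (c p q u v : Fin 3 × Fin 4) (e : f p = f q)
    (hu : (r (c, p)).1 = u) (hv : (r (c, q)).1 = v) : f u = f v := by
  rw [← hu, ← hv, hom_eq h, hom_eq h, e]

theorem stepR (h : IsHom r r' f) (c p q u v : Fin 3 × Fin 4) (e : f p = f q)
    (hu : (r (p, c)).1 = u) (hv : (r (q, c)).1 = v) : f u = f v := by
  rw [← hu, ← hv, hom_eq h, hom_eq h, e]

theorem case1 (h : IsHom r r' f) (e0 : f (0, 0) = f (0, 1)) : ∀ x, f x = f (0, 0) := by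
  have e1 := stepL h (0, 0) (0, 0) (0, 1) (2, 0) (2, 1) e0 (by decide) (by decide)
  have e2 := stepR h (0, 0) (0, 0) (0, 1) (2, 0) (2, 2) e0 (by decide) (by decide)
  have e3 := stepL h (0, 2) (0, 0) (0, 1) (1, 1) (1, 0) e0 (by decide) (by decide)
  have e4 := stepR h (0, 2) (0, 0) (0, 1) (2, 3) (2, 1) e0 (by decide) (by decide)
  have e5 := stepL h (0, 3) (0, 0) (0, 1) (0, 3) (0, 0) e0 (by decide) (by decide)
  have e6 := stepR h (1, 0) (0, 0) (0, 1) (1, 1) (0, 3) e0 (by decide) (by decide)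
  have e7 := stepL h (1, 1) (0, 0) (0, 1) (1, 3) (1, 0) e0 (by decide) (by decide)
  have e8 := stepR h (1, 3) (0, 0) (0, 1) (1, 2) (0, 2) e0 (by decide) (by decide)
  have e9 := stepL h (2, 0) (0, 0) (0, 1) (0, 1) (0, 2) e0 (by decide) (by decide)
  have e10 := stepR h (0, 0) (2, 0) (2, 1) (0, 1) (2, 3) e1 (by decide) (by decide)
  have g0 : f (0, 0) = f (0, 0) := rfl
  have g1 : f (0, 1) = f (0, 0) := e0.symm
  have g3 : f (0, 3) = f (0, 0) := e5
  have g2 : f (0, 2) = f (0, 0) := (e9.symm).trans g1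
  have g11 : f (2, 3) = f (0, 0) := (e10.symm).trans g1
  have g5 : f (1, 1) = f (0, 0) := (e6).trans g3
  have g6 : f (1, 2) = f (0, 0) := (e8).trans g2
  have g9 : f (2, 1) = f (0, 0) := (e4.symm).trans g11
  have g4 : f (1, 0) = f (0, 0) := (e3.symm).trans g5
  have g8 : f (2, 0) = f (0, 0) := (e1).trans g9
  have g7 : f (1, 3) = f (0, 0) := (e7).trans g4
  have g10 : f (2, 2) = f (0, 0) := (e2.symm).trans g8
  rintro ⟨x, y⟩
  fin_cases x <;> fin_cases y
  exacts [g0, g1, g2, g3, g4, g5, g6, g7, g8, g9, g10, g11]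

theorem case2 (h : IsHom r r' f) (e0 : f (0, 0) = f (0, 2)) : ∀ x, f x = f (0, 0) := by
  have e1 := stepL h (0, 0) (0, 0) (0, 2) (2, 0) (2, 3) e0 (by decide) (by decide)
  have e2 := stepR h (0, 0) (0, 0) (0, 2) (2, 0) (1, 1) e0 (by decide) (by decide)
  have e3 := stepL h (0, 1) (0, 0) (0, 2) (2, 2) (2, 1) e0 (by decide) (by decide)
  have e4 := stepR h (0, 1) (0, 0) (0, 2) (2, 1) (1, 0) e0 (by decide) (by decide)
  have e5 := stepL h (0, 2) (0, 0) (0, 2) (1, 1) (1, 3) e0 (by decide) (by decide)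
  have e6 := stepL h (0, 3) (0, 0) (0, 2) (0, 3) (0, 1) e0 (by decide) (by decide)
  have e7 := stepR h (0, 3) (0, 0) (0, 2) (2, 2) (1, 2) e0 (by decide) (by decide)
  have e8 := stepR h (2, 0) (0, 0) (0, 2) (0, 0) (0, 1) e0 (by decide) (by decide)
  have e9 := stepR h (0, 0) (2, 0) (2, 3) (0, 1) (2, 2) e1 (by decide) (by decide)
  have e10 := stepR h (0, 1) (2, 0) (2, 3) (0, 2) (2, 3) e1 (by decide) (by decide)
  have g0 : f (0, 0) = f (0, 0) := rfl
  have g2 : f (0, 2) = f (0, 0) := e0.symm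
  have g1 : f (0, 1) = f (0, 0) := e8.symm
  have g11 : f (2, 3) = f (0, 0) := (e10.symm).trans g2
  have g3 : f (0, 3) = f (0, 0) := (e6).trans g1
  have g10 : f (2, 2) = f (0, 0) := (e9.symm).trans g1
  have g8 : f (2, 0) = f (0, 0) := (e1).trans g11
  have g9 : f (2, 1) = f (0, 0) := (e3.symm).trans g10
  have g6 : f (1, 2) = f (0, 0) := (e7.symm).trans g10
  have g5 : f (1, 1) = f (0, 0) := (e2.symm).trans g8
  have g4 : f (1, 0) = f (0, 0) := (e4.symm).trans g9
  have g7 : f (1, 3) = f (0, 0) := (e5.symm).trans g5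
  rintro ⟨x, y⟩
  fin_cases x <;> fin_cases y
  exacts [g0, g1, g2, g3, g4, g5, g6, g7, g8, g9, g10, g11]

theorem case3 (h : IsHom r r' f) (e0 : f (0, 0) = f (0, 3)) : ∀ x, f x = f (0, 0) := by
  have e1 := stepL h (0, 0) (0, 0) (0, 3) (2, 0) (2, 2) e0 (by decide) (by decide)
  have e2 := stepR h (0, 0) (0, 0) (0, 3) (2, 0) (0, 3) e0 (by decide) (by decide)
  have e3 := stepL h (0, 1) (0, 0) (0, 3) (2, 2) (2, 3) e0 (by decide) (by decide)
  have e4 := stepR h (0, 1) (0, 0) (0, 3) (2, 1) (0, 0) e0 (by decide) (by decide)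
  have e5 := stepL h (0, 2) (0, 0) (0, 3) (1, 1) (1, 2) e0 (by decide) (by decide)
  have e6 := stepR h (0, 2) (0, 0) (0, 3) (2, 3) (0, 1) e0 (by decide) (by decide)
  have e7 := stepL h (0, 3) (0, 0) (0, 3) (0, 3) (0, 2) e0 (by decide) (by decide)
  have e8 := stepR h (1, 0) (0, 0) (0, 3) (1, 1) (2, 2) e0 (by decide) (by decide)
  have e9 := stepL h (1, 1) (0, 0) (0, 3) (1, 3) (1, 2) e0 (by decide) (by decide)
  have e10 := stepR h (1, 1) (0, 0) (0, 3) (1, 0) (2, 0) e0 (by decide) (by decide)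
  have g0 : f (0, 0) = f (0, 0) := rfl
  have g3 : f (0, 3) = f (0, 0) := e0.symm
  have g9 : f (2, 1) = f (0, 0) := e4
  have g8 : f (2, 0) = f (0, 0) := (e2).trans g3
  have g2 : f (0, 2) = f (0, 0) := (e7.symm).trans g3
  have g10 : f (2, 2) = f (0, 0) := (e1.symm).trans g8
  have g4 : f (1, 0) = f (0, 0) := (e10).trans g8
  have g11 : f (2, 3) = f (0, 0) := (e3.symm).trans g10
  have g5 : f (1, 1) = f (0, 0) := (e8).trans g10
  have g1 : f (0, 1) = f (0, 0) := (e6.symm).trans g11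
  have g6 : f (1, 2) = f (0, 0) := (e5.symm).trans g5
  have g7 : f (1, 3) = f (0, 0) := (e9).trans g6
  rintro ⟨x, y⟩
  fin_cases x <;> fin_cases y
  exacts [g0, g1, g2, g3, g4, g5, g6, g7, g8, g9, g10, g11]

theorem case4 (h : IsHom r r' f) (e0 : f (0, 0) = f (1, 0)) : ∀ x, f x = f (0, 0) := by
  have e1 := stepL h (0, 0) (0, 0) (1, 0) (2, 0) (1, 1) e0 (by decide) (by decide)
  have e2 := stepR h (0, 0) (0, 0) (1, 0) (2, 0) (0, 1) e0 (by decide) (by decide)
  have e3 := stepL h (0, 1) (0, 0) (1, 0) (2, 2) (0, 3) e0 (by decide) (by decide)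
  have e4 := stepR h (0, 1) (0, 0) (1, 0) (2, 1) (0, 0) e0 (by decide) (by decide)
  have e5 := stepR h (0, 2) (0, 0) (1, 0) (2, 3) (0, 3) e0 (by decide) (by decide)
  have e6 := stepR h (0, 3) (0, 0) (1, 0) (2, 2) (0, 2) e0 (by decide) (by decide)
  have e7 := stepL h (1, 0) (0, 0) (1, 0) (0, 1) (2, 1) e0 (by decide) (by decide)
  have e8 := stepL h (1, 1) (0, 0) (1, 0) (1, 3) (2, 3) e0 (by decide) (by decide)
  have e9 := stepR h (1, 3) (0, 0) (1, 0) (1, 2) (2, 3) e0 (by decide) (by decide)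
  have e10 := stepL h (2, 0) (0, 0) (1, 0) (0, 1) (2, 2) e0 (by decide) (by decide)
  have g0 : f (0, 0) = f (0, 0) := rfl
  have g4 : f (1, 0) = f (0, 0) := e0.symm
  have g9 : f (2, 1) = f (0, 0) := e4
  have g1 : f (0, 1) = f (0, 0) := (e7).trans g9
  have g8 : f (2, 0) = f (0, 0) := (e2).trans g1
  have g10 : f (2, 2) = f (0, 0) := (e10.symm).trans g1
  have g5 : f (1, 1) = f (0, 0) := (e1.symm).trans g8
  have g3 : f (0, 3) = f (0, 0) := (e3.symm).trans g10
  have g2 : f (0, 2) = f (0, 0) := (e6.symm).trans g10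
  have g11 : f (2, 3) = f (0, 0) := (e5).trans g3
  have g7 : f (1, 3) = f (0, 0) := (e8).trans g11
  have g6 : f (1, 2) = f (0, 0) := (e9).trans g11
  rintro ⟨x, y⟩
  fin_cases x <;> fin_cases y
  exacts [g0, g1, g2, g3, g4, g5, g6, g7, g8, g9, g10, g11]

theorem case5 (h : IsHom r r' f) (e0 : f (0, 0) = f (1, 1)) : ∀ x, f x = f (0, 0) := by
  have e1 := stepL h (0, 0) (0, 0) (1, 1) (2, 0) (1, 0) e0 (by decide) (by decide)
  have e2 := stepR h (0, 0) (0, 0) (1, 1) (2, 0) (1, 3) e0 (by decide) (by decide)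
  have e3 := stepL h (0, 1) (0, 0) (1, 1) (2, 2) (0, 0) e0 (by decide) (by decide)
  have e4 := stepR h (0, 1) (0, 0) (1, 1) (2, 1) (1, 0) e0 (by decide) (by decide)
  have e5 := stepL h (0, 2) (0, 0) (1, 1) (1, 1) (2, 1) e0 (by decide) (by decide)
  have e6 := stepR h (0, 2) (0, 0) (1, 1) (2, 3) (1, 1) e0 (by decide) (by decide)
  have e7 := stepL h (0, 3) (0, 0) (1, 1) (0, 3) (2, 0) e0 (by decide) (by decide)
  have e8 := stepR h (0, 3) (0, 0) (1, 1) (2, 2) (1, 2) e0 (by decide) (by decide)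
  have e9 := stepL h (1, 0) (0, 0) (1, 1) (0, 1) (2, 0) e0 (by decide) (by decide)
  have e10 := stepR h (2, 1) (0, 0) (1, 1) (0, 1) (0, 2) e0 (by decide) (by decide)
  have g0 : f (0, 0) = f (0, 0) := rfl
  have g5 : f (1, 1) = f (0, 0) := e0.symm
  have g10 : f (2, 2) = f (0, 0) := e3
  have g9 : f (2, 1) = f (0, 0) := (e5.symm).trans g5
  have g11 : f (2, 3) = f (0, 0) := (e6).trans g5
  have g6 : f (1, 2) = f (0, 0) := (e8.symm).trans g10
  have g4 : f (1, 0) = f (0, 0) := (e4.symm).trans g9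
  have g8 : f (2, 0) = f (0, 0) := (e1).trans g4
  have g7 : f (1, 3) = f (0, 0) := (e2.symm).trans g8
  have g3 : f (0, 3) = f (0, 0) := (e7).trans g8
  have g1 : f (0, 1) = f (0, 0) := (e9).trans g8
  have g2 : f (0, 2) = f (0, 0) := (e10.symm).trans g1
  rintro ⟨x, y⟩
  fin_cases x <;> fin_cases y
  exacts [g0, g1, g2, g3, g4, g5, g6, g7, g8, g9, g10, g11]

theorem case6 (h : IsHom r r' f) (e0 : f (0, 0) = f (1, 2)) : ∀ x, f x = f (0, 0) := by
  have e1 := stepL h (0, 0) (0, 0) (1, 2) (2, 0) (1, 3) e0 (by decide) (by decide)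
  have e2 := stepR h (0, 0) (0, 0) (1, 2) (2, 0) (2, 1) e0 (by decide) (by decide)
  have e3 := stepL h (0, 1) (0, 0) (1, 2) (2, 2) (0, 1) e0 (by decide) (by decide)
  have e4 := stepL h (0, 2) (0, 0) (1, 2) (1, 1) (2, 3) e0 (by decide) (by decide)
  have e5 := stepR h (0, 2) (0, 0) (1, 2) (2, 3) (2, 2) e0 (by decide) (by decide)
  have e6 := stepL h (0, 3) (0, 0) (1, 2) (0, 3) (2, 1) e0 (by decide) (by decide)
  have e7 := stepR h (1, 1) (0, 0) (1, 2) (1, 0) (0, 0) e0 (by decide) (by decide)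
  have e8 := stepR h (1, 3) (0, 0) (1, 2) (1, 2) (0, 2) e0 (by decide) (by decide)
  have e9 := stepL h (2, 0) (0, 0) (1, 2) (0, 1) (2, 1) e0 (by decide) (by decide)
  have e10 := stepR h (0, 1) (2, 0) (1, 3) (0, 2) (2, 1) e1 (by decide) (by decide)
  have g0 : f (0, 0) = f (0, 0) := rfl
  have g6 : f (1, 2) = f (0, 0) := e0.symm
  have g4 : f (1, 0) = f (0, 0) := e7
  have g2 : f (0, 2) = f (0, 0) := (e8.symm).trans g6
  have g9 : f (2, 1) = f (0, 0) := (e10.symm).trans g2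
  have g8 : f (2, 0) = f (0, 0) := (e2).trans g9
  have g3 : f (0, 3) = f (0, 0) := (e6).trans g9
  have g1 : f (0, 1) = f (0, 0) := (e9).trans g9
  have g7 : f (1, 3) = f (0, 0) := (e1.symm).trans g8
  have g10 : f (2, 2) = f (0, 0) := (e3).trans g1
  have g11 : f (2, 3) = f (0, 0) := (e5).trans g10
  have g5 : f (1, 1) = f (0, 0) := (e4).trans g11
  rintro ⟨x, y⟩
  fin_cases x <;> fin_cases y
  exacts [g0, g1, g2, g3, g4, g5, g6, g7, g8, g9, g10, g11]

theorem case7 (h : IsHom r r' f) (e0 : f (0, 0) = f (1, 3)) : ∀ x, f x = f (0, 0) := by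
  have e1 := stepL h (0, 0) (0, 0) (1, 3) (2, 0) (1, 2) e0 (by decide) (by decide)
  have e2 := stepR h (0, 0) (0, 0) (1, 3) (2, 0) (2, 3) e0 (by decide) (by decide)
  have e3 := stepL h (0, 1) (0, 0) (1, 3) (2, 2) (0, 2) e0 (by decide) (by decide)
  have e4 := stepL h (0, 2) (0, 0) (1, 3) (1, 1) (2, 2) e0 (by decide) (by decide)
  have e5 := stepL h (0, 3) (0, 0) (1, 3) (0, 3) (2, 3) e0 (by decide) (by decide)
  have e6 := stepL h (1, 0) (0, 0) (1, 3) (0, 1) (2, 3) e0 (by decide) (by decide)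
  have e7 := stepR h (1, 0) (0, 0) (1, 3) (1, 1) (1, 3) e0 (by decide) (by decide)
  have e8 := stepL h (1, 2) (0, 0) (1, 3) (2, 1) (0, 2) e0 (by decide) (by decide)
  have e9 := stepL h (2, 1) (0, 0) (1, 3) (2, 3) (1, 0) e0 (by decide) (by decide)
  have e10 := stepR h (0, 0) (2, 0) (1, 2) (0, 1) (2, 1) e1 (by decide) (by decide)
  have g0 : f (0, 0) = f (0, 0) := rfl
  have g7 : f (1, 3) = f (0, 0) := e0.symm
  have g5 : f (1, 1) = f (0, 0) := (e7).trans g7
  have g10 : f (2, 2) = f (0, 0) := (e4.symm).trans g5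
  have g2 : f (0, 2) = f (0, 0) := (e3.symm).trans g10
  have g9 : f (2, 1) = f (0, 0) := (e8).trans g2
  have g1 : f (0, 1) = f (0, 0) := (e10).trans g9
  have g11 : f (2, 3) = f (0, 0) := (e6.symm).trans g1
  have g8 : f (2, 0) = f (0, 0) := (e2).trans g11
  have g3 : f (0, 3) = f (0, 0) := (e5).trans g11
  have g4 : f (1, 0) = f (0, 0) := (e9.symm).trans g11
  have g6 : f (1, 2) = f (0, 0) := (e1.symm).trans g8
  rintro ⟨x, y⟩
  fin_cases x <;> fin_cases y
  exacts [g0, g1, g2, g3, g4, g5, g6, g7, g8, g9, g10, g11]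

theorem case8 (h : IsHom r r' f) (e0 : f (0, 0) = f (2, 0)) : ∀ x, f x = f (0, 0) := by
  have e1 := stepR h (0, 0) (0, 0) (2, 0) (2, 0) (0, 1) e0 (by decide) (by decide)
  have e2 := stepL h (0, 1) (0, 0) (2, 0) (2, 2) (1, 2) e0 (by decide) (by decide)
  have e3 := stepR h (0, 1) (0, 0) (2, 0) (2, 1) (0, 2) e0 (by decide) (by decide)
  have e4 := stepL h (0, 2) (0, 0) (2, 0) (1, 1) (0, 1) e0 (by decide) (by decide)
  have e5 := stepR h (0, 2) (0, 0) (2, 0) (2, 3) (0, 3) e0 (by decide) (by decide)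
  have e6 := stepL h (0, 3) (0, 0) (2, 0) (0, 3) (1, 3) e0 (by decide) (by decide)
  have e7 := stepR h (0, 3) (0, 0) (2, 0) (2, 2) (0, 0) e0 (by decide) (by decide)
  have e8 := stepR h (1, 1) (0, 0) (2, 0) (1, 0) (2, 3) e0 (by decide) (by decide)
  have e9 := stepL h (1, 2) (0, 0) (2, 0) (2, 1) (1, 0) e0 (by decide) (by decide)
  have e10 := stepL h (0, 0) (2, 0) (0, 1) (0, 0) (2, 1) e1 (by decide) (by decide)
  have g0 : f (0, 0) = f (0, 0) := rfl
  have g8 : f (2, 0) = f (0, 0) := e0.symm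
  have g10 : f (2, 2) = f (0, 0) := e7
  have g9 : f (2, 1) = f (0, 0) := e10.symm
  have g1 : f (0, 1) = f (0, 0) := (e1.symm).trans g8
  have g6 : f (1, 2) = f (0, 0) := (e2.symm).trans g10
  have g2 : f (0, 2) = f (0, 0) := (e3.symm).trans g9
  have g4 : f (1, 0) = f (0, 0) := (e9.symm).trans g9
  have g5 : f (1, 1) = f (0, 0) := (e4).trans g1
  have g11 : f (2, 3) = f (0, 0) := (e8.symm).trans g4
  have g3 : f (0, 3) = f (0, 0) := (e5.symm).trans g11
  have g7 : f (1, 3) = f (0, 0) := (e6.symm).trans g3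
  rintro ⟨x, y⟩
  fin_cases x <;> fin_cases y
  exacts [g0, g1, g2, g3, g4, g5, g6, g7, g8, g9, g10, g11]

theorem case9 (h : IsHom r r' f) (e0 : f (0, 0) = f (2, 1)) : ∀ x, f x = f (0, 0) := by
  have e1 := stepL h (0, 0) (0, 0) (2, 1) (2, 0) (0, 1) e0 (by decide) (by decide)
  have e2 := stepR h (0, 0) (0, 0) (2, 1) (2, 0) (2, 3) e0 (by decide) (by decide)
  have e3 := stepL h (0, 1) (0, 0) (2, 1) (2, 2) (1, 3) e0 (by decide) (by decide)
  have e4 := stepR h (0, 1) (0, 0) (2, 1) (2, 1) (2, 2) e0 (by decide) (by decide)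
  have e5 := stepL h (0, 2) (0, 0) (2, 1) (1, 1) (0, 0) e0 (by decide) (by decide)
  have e6 := stepL h (0, 3) (0, 0) (2, 1) (0, 3) (1, 2) e0 (by decide) (by decide)
  have e7 := stepL h (1, 0) (0, 0) (2, 1) (0, 1) (1, 0) e0 (by decide) (by decide)
  have e8 := stepL h (1, 1) (0, 0) (2, 1) (1, 3) (0, 2) e0 (by decide) (by decide)
  have e9 := stepR h (1, 1) (0, 0) (2, 1) (1, 0) (1, 2) e0 (by decide) (by decide)
  have e10 := stepR h (0, 0) (2, 0) (0, 1) (0, 1) (2, 2) e1 (by decide) (by decide)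
  have g0 : f (0, 0) = f (0, 0) := rfl
  have g9 : f (2, 1) = f (0, 0) := e0.symm
  have g5 : f (1, 1) = f (0, 0) := e5
  have g10 : f (2, 2) = f (0, 0) := (e4.symm).trans g9
  have g7 : f (1, 3) = f (0, 0) := (e3.symm).trans g10
  have g1 : f (0, 1) = f (0, 0) := (e10).trans g10
  have g2 : f (0, 2) = f (0, 0) := (e8.symm).trans g7
  have g8 : f (2, 0) = f (0, 0) := (e1).trans g1
  have g4 : f (1, 0) = f (0, 0) := (e7.symm).trans g1
  have g11 : f (2, 3) = f (0, 0) := (e2.symm).trans g8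
  have g6 : f (1, 2) = f (0, 0) := (e9.symm).trans g4
  have g3 : f (0, 3) = f (0, 0) := (e6).trans g6
  rintro ⟨x, y⟩
  fin_cases x <;> fin_cases y
  exacts [g0, g1, g2, g3, g4, g5, g6, g7, g8, g9, g10, g11]

theorem case10 (h : IsHom r r' f) (e0 : f (0, 0) = f (2, 2)) : ∀ x, f x = f (0, 0) := by
  have e1 := stepL h (0, 0) (0, 0) (2, 2) (2, 0) (0, 3) e0 (by decide) (by decide)
  have e2 := stepR h (0, 0) (0, 0) (2, 2) (2, 0) (1, 1) e0 (by decide) (by decide)
  have e3 := stepL h (0, 1) (0, 0) (2, 2) (2, 2) (1, 1) e0 (by decide) (by decide)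
  have e4 := stepR h (0, 1) (0, 0) (2, 2) (2, 1) (1, 2) e0 (by decide) (by decide)
  have e5 := stepL h (0, 2) (0, 0) (2, 2) (1, 1) (0, 2) e0 (by decide) (by decide)
  have e6 := stepR h (0, 2) (0, 0) (2, 2) (2, 3) (1, 3) e0 (by decide) (by decide)
  have e7 := stepL h (0, 3) (0, 0) (2, 2) (0, 3) (1, 0) e0 (by decide) (by decide)
  have e8 := stepL h (1, 0) (0, 0) (2, 2) (0, 1) (1, 2) e0 (by decide) (by decide)
  have e9 := stepR h (1, 0) (0, 0) (2, 2) (1, 1) (2, 3) e0 (by decide) (by decide)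
  have e10 := stepL h (1, 2) (0, 0) (2, 2) (2, 1) (1, 3) e0 (by decide) (by decide)
  have g0 : f (0, 0) = f (0, 0) := rfl
  have g10 : f (2, 2) = f (0, 0) := e0.symm
  have g5 : f (1, 1) = f (0, 0) := (e3.symm).trans g10
  have g8 : f (2, 0) = f (0, 0) := (e2).trans g5
  have g2 : f (0, 2) = f (0, 0) := (e5.symm).trans g5
  have g11 : f (2, 3) = f (0, 0) := (e9.symm).trans g5
  have g3 : f (0, 3) = f (0, 0) := (e1.symm).trans g8
  have g7 : f (1, 3) = f (0, 0) := (e6.symm).trans g11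
  have g4 : f (1, 0) = f (0, 0) := (e7.symm).trans g3
  have g9 : f (2, 1) = f (0, 0) := (e10).trans g7
  have g6 : f (1, 2) = f (0, 0) := (e4.symm).trans g9
  have g1 : f (0, 1) = f (0, 0) := (e8).trans g6
  rintro ⟨x, y⟩
  fin_cases x <;> fin_cases y
  exacts [g0, g1, g2, g3, g4, g5, g6, g7, g8, g9, g10, g11]

theorem case11 (h : IsHom r r' f) (e0 : f (0, 0) = f (2, 3)) : ∀ x, f x = f (0, 0) := by
  have e1 := stepL h (0, 0) (0, 0) (2, 3) (2, 0) (0, 2) e0 (by decide) (by decide)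
  have e2 := stepR h (0, 0) (0, 0) (2, 3) (2, 0) (2, 2) e0 (by decide) (by decide)
  have e3 := stepL h (0, 1) (0, 0) (2, 3) (2, 2) (1, 0) e0 (by decide) (by decide)
  have e4 := stepR h (0, 1) (0, 0) (2, 3) (2, 1) (2, 3) e0 (by decide) (by decide)
  have e5 := stepL h (0, 2) (0, 0) (2, 3) (1, 1) (0, 3) e0 (by decide) (by decide)
  have e6 := stepL h (1, 0) (0, 0) (2, 3) (0, 1) (1, 3) e0 (by decide) (by decide)
  have e7 := stepR h (1, 0) (0, 0) (2, 3) (1, 1) (0, 1) e0 (by decide) (by decide)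
  have e8 := stepL h (1, 2) (0, 0) (2, 3) (2, 1) (1, 2) e0 (by decide) (by decide)
  have e9 := stepL h (0, 0) (2, 0) (2, 2) (0, 0) (0, 3) e2 (by decide) (by decide)
  have e10 := stepR h (0, 1) (2, 0) (2, 2) (0, 2) (1, 2) e2 (by decide) (by decide)
  have g0 : f (0, 0) = f (0, 0) := rfl
  have g11 : f (2, 3) = f (0, 0) := e0.symm
  have g3 : f (0, 3) = f (0, 0) := e9.symm
  have g9 : f (2, 1) = f (0, 0) := (e4).trans g11
  have g5 : f (1, 1) = f (0, 0) := (e5).trans g3
  have g6 : f (1, 2) = f (0, 0) := (e8.symm).trans g9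
  have g1 : f (0, 1) = f (0, 0) := (e7.symm).trans g5
  have g2 : f (0, 2) = f (0, 0) := (e10).trans g6
  have g7 : f (1, 3) = f (0, 0) := (e6.symm).trans g1
  have g8 : f (2, 0) = f (0, 0) := (e1).trans g2
  have g10 : f (2, 2) = f (0, 0) := (e2.symm).trans g8
  have g4 : f (1, 0) = f (0, 0) := (e3.symm).trans g10
  rintro ⟨x, y⟩
  fin_cases x <;> fin_cases y
  exacts [g0, g1, g2, g3, g4, g5, g6, g7, g8, g9, g10, g11]

theorem move : ∀ a b : Fin 3 × Fin 4, a ≠ b → ∃ c d : Fin 3 × Fin 4, ∃ w : Fin 3 × Fin 4,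
    w ≠ (0, 0) ∧ (r (c, (r (d, a)).1)).1 = (0, 0) ∧ (r (c, (r (d, b)).1)).1 = w := by
  decide +kernel

theorem all_eq (h : IsHom r r' f) (a b : Fin 3 × Fin 4) (hab : a ≠ b) (e : f a = f b) :
    ∀ x, f x = f (0, 0) := by
  obtain ⟨c, d, w, hw, h1, h2⟩ := move a b hab
  have e1 := stepL h d a b _ _ e rfl rfl
  have e2 := stepL h c _ _ _ _ e1 h1 h2
  obtain ⟨w1, w2⟩ := w
  fin_cases w1 <;> fin_cases w2
  · exact absurd rfl hw

  · exact case1 h e2
  · exact case2 h e2
  · exact case3 h e2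
  · exact case4 h e2
  · exact case5 h e2
  · exact case6 h e2
  · exact case7 h e2
  · exact case8 h e2
  · exact case9 h e2
  · exact case10 h e2
  · exact case11 h e2

end simple

theorem simple : IsSimple r := by
  refine ⟨by simp [Nat.card_eq_fintype_card], fun X' r' _ f hf h => ?_⟩
  by_cases hinj : Function.Injective f
  · exact Or.inl ⟨hinj, hf⟩
  · right
    rw [Function.Injective] at hinj
    push Not at hinj
    obtain ⟨a, b, e, hab⟩ := hinj
    have hall := all_eq h a b hab e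
    rw [Nat.card_eq_one_iff_unique]
    refine ⟨⟨fun x y => ?_⟩, ⟨f (0, 0)⟩⟩
    obtain ⟨x, rfl⟩ := hf x
    obtain ⟨y, rfl⟩ := hf y
    rw [hall x, hall y]

/-- **A finite simple solution with blocks `X_y` whose size does not divide their number.** -/
theorem result : ∃ (Y Z : Type) (_ : Finite Y) (_ : Finite Z)
    (r : (Y × Z) × (Y × Z) → (Y × Z) × (Y × Z)), Nat.card Y = 3 ∧ Nat.card Z = 4 ∧
      IsSolution r ∧ IsSimple r ∧ AreBlocks r ∧ ¬ Nat.card Z ∣ Nat.card Y := by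
  refine ⟨Fin 3, Fin 4, inferInstance, inferInstance, r, by simp, by simp, solution, simple,
    blocks, ?_⟩
  simp

end Pool.Agent.Results.MP_9f168b_al.ThreeBlocksOfSizeFour
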